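import Pool.Agent.H20.TU.Final

set_option autoImplicit false

/-!
# Tate classes on products of varieties over a finite field: low codimension suffices

The basis elements `e i`, `i : ι`, the tensor powers, the families `A` of subspaces of the tensor
powers with the closure properties of algebraic classes, and Tate classes are defined in
`Pool.Agent.H20.TU.Defs`.
-/

namespace Pool.Agent.Results.MP_0fca13_ag.LowCodimension

open Pool.Agent.H20.TU

/-- **Low codimension suffices for the Tate conjecture over a finite field.**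

`V` is a finite set of basis elements of degree at most the dimension (a basis of the cohomology,
in those degrees, of finitely many varieties).  There is a finite set `S` of Weil `q`-numbers of
weight one such that the following holds for every curve `C`, mapping to a supersingular elliptic
curve `E`, for which all elements of `S` are eigenvalues of Frobenius on `H¹(C)`.  If `A` contains
the Tate classes (1) on `C × C` (Tate's theorem), (2) in codimension two on `C × C × C × E`, and
(3) in codimension `m` on `X × C ^ m`, in the component `H ^ m (X) ⊗ H¹(C) ^ {⊗ m}`, for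
`1 ≤ m ≤ dim X`, then `A` contains all the Tate classes of all codimensions on all products of the
given varieties. -/
theorem result {K : Type*} [Field K] [CharZero K] [IsAlgClosed K] {ι : Type*} {q : ℕ} (hq : 1 < q)
    {d : ι → ℕ} {a : ι → K} {ω : ι → ι → K} {low : Set ι} {up : ι → ι}
    (h : Setting q d a low up) (V : Finset ι) (hV : ∀ i ∈ V, i ∈ low) :
    ∃ S : Finset K, (∀ x ∈ S, IsWeil q 1 x) ∧
      ∀ A : ∀ n, Submodule K (Tens K ι n), Closed d ω up A →
      ∀ H E : Set ι, Curve q d a ω H E → (∀ x ∈ S, ∃ i ∈ H, a i = x) →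
      Has A q a (fun v : Fin 2 → ι => ∀ l, v l ∈ H) →
      Has A q a (fun v : Fin 4 → ι => v 0 ∈ H ∧ v 1 ∈ H ∧ v 2 ∈ H ∧ v 3 ∈ E) →
      (∀ m : ℕ, 1 ≤ m → Has A q a (fun v : Fin (m + 1) → ι =>
        v 0 ∈ V ∧ d (v 0) = m ∧ ∃ j ∈ H, ∀ l : Fin m, v l.succ = j)) →
      ∀ n : ℕ, Has A q a (fun v : Fin n → ι => ∀ l, v l ∈ V ∨ ∃ j ∈ V, v l = up j) := by
  classical
  obtain ⟨r, hr⟩ := IsAlgClosed.exists_pow_nat_eq (q : K) (n := 2) (by norm_num)
  have hqK : (q : K) ≠ 0 := by
    have : (q : ℕ) ≠ 0 := by omega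
    exact_mod_cast this
  have hr0 : r ≠ 0 := by
    rintro rfl
    apply hqK
    rw [← hr]; ring
  have hγ0 : ∀ b : V, ∃ g : K, d b ≠ 0 → g ^ d b = a b := by
    intro b
    by_cases hd : d b = 0
    · exact ⟨0, fun h => absurd hd h⟩
    · obtain ⟨g, hg⟩ := IsAlgClosed.exists_pow_nat_eq (a b) (Nat.pos_of_ne_zero hd)
      exact ⟨g, fun _ => hg⟩
  choose γ hγ using hγ0
  obtain ⟨S, hS, hS'⟩ := core_fin d a ω up hq hr (fun b : V => d b) (fun b : V => a b) γ
    (fun b => h.weil b) hγ (fun b hb => by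
      obtain ⟨m, hm, hm'⟩ := h.root b hb
      exact ⟨m, hm.ne', by rw [hm', one_pow]⟩)
  refine ⟨S ∪ (Finset.univ.filter fun b : V => d b ≠ 0).image γ, ?_, ?_⟩
  · intro x hx
    rw [Finset.mem_union, Finset.mem_image] at hx
    rcases hx with hx | ⟨b, hb, rfl⟩
    · exact hS x hx
    · rw [Finset.mem_filter] at hb
      exact (h.weil b).root hb.2 (hγ b hb.2)
  intro A hA H E hC hocc h2 h4 h3 n
  have hP := hS' A hA H E hC (fun g hg => hocc g (Finset.mem_union_left _ hg)) (pairs_of_has hA h2)
    (quads_of_has hA h4)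
  have hdom : ∀ b : V, ∃ u w : ι, Dom A a ω H (d b) (γ b) b u w := by
    intro b
    refine exists_dom hA hC (fun hb => ?_) (hγ b) (fun hb => ?_) (fun hb j hj hT => ?_)
    · have h5 := (good_ofFn hA _).2 (hA.zero (fun _ => (b : ι)) hb)
      simpa using h5
    · exact hocc _ (Finset.mem_union_right _ (Finset.mem_image.2
        ⟨b, Finset.mem_filter.2 ⟨Finset.mem_univ _, hb⟩, rfl⟩))
    · refine mem_of_has (h3 (d b) (Nat.pos_of_ne_zero hb)) (k := d b) ?_ ?_
      · exact ⟨b.2, rfl, j, hj, fun l => rfl⟩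
      · rw [Fin.prod_univ_succ]
        simpa using hT
  refine has_of_mem fun v hv k hT => ?_
  have hg : ∀ l, ∃ b : V, v l = b ∨ v l = up b := by
    intro l
    rcases hv l with h5 | ⟨j, hj, h5⟩
    · exact ⟨⟨v l, h5⟩, Or.inl rfl⟩
    · exact ⟨⟨j, hj⟩, Or.inr h5⟩
  choose g hg using hg
  have he : ∀ l, ∃ e : ℕ, a (v l) = (q : K) ^ e * a (g l) := by
    intro l
    rcases hg l with h5 | h5
    · exact ⟨0, by rw [h5, pow_zero, one_mul]⟩
    · obtain ⟨e, he⟩ := h.shift (g l) (hV _ (g l).2)
      exact ⟨e, by rw [h5, he]⟩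
  choose e he using he
  have hprod : ∏ l, a (v l) = (q : K) ^ (∑ l, e l) * ∏ l, a (g l) := by
    rw [← Finset.prod_pow_eq_pow_sum, ← Finset.prod_mul_distrib]
    exact Finset.prod_congr rfl fun l _ => he l
  rw [hprod] at hT
  obtain ⟨M, hM, hT⟩ := hT
  have hw : 2 * (∑ l, e l) + ∑ l, d (g l) = k * 2 := by
    refine IsWeil.weight_unique hq hM ?_ (isWeil_pow (isWeil_natCast (K := K) (q := q)) k) hT
    refine IsWeil.mul ?_ (weil_fprod Finset.univ (fun l => d (g l)) (fun l => a (g l))
      (fun l _ => h.weil _))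
    rw [mul_comm]
    exact isWeil_pow isWeil_natCast _
  obtain ⟨k', hk'⟩ : ∃ k', k = (∑ l, e l) + k' := ⟨k - ∑ l, e l, by omega⟩
  have hT' : Sim (∏ l, a (g l)) ((q : K) ^ k') := by
    refine ⟨M, hM, ?_⟩
    rw [hk', pow_add, mul_pow, mul_pow] at hT
    exact mul_left_cancel₀ (pow_ne_zero _ (pow_ne_zero _ hqK)) hT
  have h5 := words_fin hA hr0 (fun b : V => d b) (fun b : V => a b) γ (fun b : V => (b : ι)) hdom
    hP g k' hT'
  have h6 := (good_ofFn hA _).2 h5
  refine (good_ofFn hA _).1 ?_
  have h7 := good_raise_list hA (List.ofFn fun l => ((g l : ι), v l)) (by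
    intro p hp
    obtain ⟨l, rfl⟩ := List.mem_ofFn.1 hp
    exact hg l) 0
  rw [List.map_ofFn, List.map_ofFn, add_zero, add_zero] at h7
  exact h7 h6

end Pool.Agent.Results.MP_0fca13_ag.LowCodimension
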